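import Pool.Agent.K1H79.TW.Stm

/-!
Piece E (S_CNF) of the project TW (MP_695920_nt).
-/

set_option autoImplicit false

namespace Pool.Agent.K1H87.TW

open NumberField InfinitePlace Units Pool.Agent.K1H79.TW

lemma le_two_mul_totient_prime_pow {p k : ℕ} (hp : p.Prime) (hk : 0 < k) :
    p ^ k ≤ 2 * (p ^ k).totient := by
  rw [Nat.totient_prime_pow hp hk]
  obtain ⟨j, rfl⟩ : ∃ j, k = j + 1 := ⟨k - 1, by omega⟩
  rw [Nat.add_sub_cancel, pow_succ]
  have h2 := hp.two_le
  have : p ≤ 2 * (p - 1) := by omega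
  calc p ^ j * p ≤ p ^ j * (2 * (p - 1)) := Nat.mul_le_mul_left _ this
    _ = 2 * (p ^ j * (p - 1)) := by ring

lemma le_factorial_of_totient_le {w n : ℕ} (hw : 0 < w) (h : w.totient ≤ n) :
    w ≤ (2 * n).factorial := by
  refine Nat.le_of_dvd (Nat.factorial_pos _) ?_
  rw [Nat.dvd_iff_prime_pow_dvd_dvd]
  intro p k hp hk
  rcases Nat.eq_zero_or_pos k with rfl | hk0
  · simp
  refine Nat.dvd_factorial (pow_pos hp.pos k) ?_
  have h1 : (p ^ k).totient ≤ w.totient :=
    Nat.le_of_dvd (Nat.totient_pos.mpr hw) (Nat.totient_dvd_of_dvd hk)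
  have h2 := le_two_mul_totient_prime_pow hp hk0
  omega

lemma torsionOrder_le {n : ℕ} (F : Type) [Field F] [NumberField F]
    (hn : Module.finrank ℚ F ≤ n) : torsionOrder F ≤ (2 * n).factorial := by
  obtain ⟨μ, hμ⟩ : ∃ μ : torsion F, orderOf μ = torsionOrder F := by
    exact IsCyclic.exists_ofOrder_eq_natCard
  rw [← IsPrimitiveRoot.iff_orderOf, ← IsPrimitiveRoot.coe_submonoidClass_iff,
    ← IsPrimitiveRoot.coe_units_iff] at hμ
  replace hμ := hμ.map_of_injective (FaithfulSMul.algebraMap_injective (𝓞 F) F)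
  have hpos : 0 < torsionOrder F := torsionOrder_pos F
  refine le_factorial_of_totient_le hpos (le_trans ?_ hn)
  have := IsPrimitiveRoot.lcm_totient_le_finrank hμ hμ
    (Polynomial.cyclotomic.irreducible_rat (by rw [Nat.lcm_self]; exact hpos))
  rwa [Nat.lcm_self] at this

theorem t_CNF : S_CNF := by
  intro n
  refine ⟨(2 * Real.pi) ^ n + ((2 * n).factorial : ℝ), by positivity, ?_⟩
  intro F _ _ hn
  have hw1 : (torsionOrder F : ℝ) ≤ ((2 * n).factorial : ℝ) := by
    exact_mod_cast torsionOrder_le F hn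
  have hw0 : (1 : ℝ) ≤ (torsionOrder F : ℝ) := by
    exact_mod_cast torsionOrder_pos F
  have hπ : (2 : ℝ) ≤ 2 * Real.pi := by
    nlinarith [Real.pi_gt_three]
  have hR : 0 < regulator F := regulator_pos F
  have hh : (0 : ℝ) < (classNumber F : ℝ) := Nat.cast_pos.mpr (classNumber_pos F)
  have hD : 0 < √|(discr F : ℝ)| :=
    Real.sqrt_pos_of_pos (abs_pos.mpr (Int.cast_ne_zero.mpr (discr_ne_zero F)))
  set A : ℝ := 2 ^ nrRealPlaces F * (2 * Real.pi) ^ nrComplexPlaces F with hA
  have hA1 : 1 ≤ A := by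
    have h1 : (1 : ℝ) ≤ 2 ^ nrRealPlaces F := one_le_pow₀ (by norm_num)
    have h2 : (1 : ℝ) ≤ (2 * Real.pi) ^ nrComplexPlaces F := one_le_pow₀ (by linarith)
    nlinarith
  have hA2 : A ≤ (2 * Real.pi) ^ n := by
    have hrank := card_add_two_mul_card_eq_rank F
    have h1 : (2 : ℝ) ^ nrRealPlaces F ≤ (2 * Real.pi) ^ nrRealPlaces F :=
      pow_le_pow_left₀ (by norm_num) hπ _
    calc A ≤ (2 * Real.pi) ^ nrRealPlaces F * (2 * Real.pi) ^ nrComplexPlaces F := by
          rw [hA]; gcongr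
      _ = (2 * Real.pi) ^ (nrRealPlaces F + nrComplexPlaces F) := by rw [pow_add]
      _ ≤ (2 * Real.pi) ^ n := pow_le_pow_right₀ (by linarith) (by omega)
  have key : dedekindZeta_residue F * √|(discr F : ℝ)| =
      A * (classNumber F * regulator F) / torsionOrder F := by
    rw [dedekindZeta_residue_def]
    have hw : (torsionOrder F : ℝ) ≠ 0 := by positivity
    have hcast : Real.sqrt ((|discr F| : ℤ) : ℝ) = √|(discr F : ℝ)| := by
      rw [Int.cast_abs]
    rw [hcast] at *
    rw [← hA]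
    field_simp
  rw [key]
  have hHR : 0 < (classNumber F : ℝ) * regulator F := mul_pos hh hR
  set H : ℝ := (classNumber F : ℝ) * regulator F with hH
  have hpi0 : (0 : ℝ) ≤ (2 * Real.pi) ^ n := by positivity
  have hf0 : (0 : ℝ) ≤ ((2 * n).factorial : ℝ) := by positivity
  constructor
  · rw [mul_div_assoc']
    rw [le_div_iff₀ (by linarith)]
    calc H * torsionOrder F ≤ H * ((2 * Real.pi) ^ n + ((2 * n).factorial : ℝ)) := by
          apply mul_le_mul_of_nonneg_left _ hHR.le
          linarith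
      _ = ((2 * Real.pi) ^ n + ((2 * n).factorial : ℝ)) * (1 * H) := by ring
      _ ≤ ((2 * Real.pi) ^ n + ((2 * n).factorial : ℝ)) * (A * H) := by
          apply mul_le_mul_of_nonneg_left _ (by positivity)
          exact mul_le_mul_of_nonneg_right hA1 hHR.le
  · calc A * H / torsionOrder F ≤ A * H / 1 := by
          apply div_le_div_of_nonneg_left _ one_pos hw0
          positivity
      _ = A * H := by rw [div_one]
      _ ≤ ((2 * Real.pi) ^ n + ((2 * n).factorial : ℝ)) * H := by
          apply mul_le_mul_of_nonneg_right _ hHR.le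
          linarith

end Pool.Agent.K1H87.TW
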